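import Mathlib

/-!
# MP_ecf776_lc : edit-distance balls can need exponentially many DFA states

We prove Q1 (precise form), with `c = 1/2`: for every `n` there are a finite alphabet, a word `x`
of length `2n` and the radius `k = 2n` such that every DFA recognising the ball `B_k(x)` has at
least `2 ^ n` states.
-/

set_option autoImplicit false

namespace Pool.Agent.Results.MP_ecf776_lc.ExponentialBall

/-- One insertion, deletion or substitution of a single symbol. -/
inductive EditStep {α : Type} : List α → List α → Prop
  | insertion (p s : List α) (a : α) : EditStep (p ++ s) (p ++ a :: s)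
  | deletion (p s : List α) (a : α) : EditStep (p ++ a :: s) (p ++ s)
  | substitution (p s : List α) (a b : α) : EditStep (p ++ a :: s) (p ++ b :: s)

/-- `Reach j u v`: `u` is transformed into `v` by `j` edit steps. -/
inductive Reach {α : Type} : ℕ → List α → List α → Prop
  | refl (u : List α) : Reach 0 u u
  | tail {j : ℕ} {u v w : List α} : Reach j u v → EditStep v w → Reach (j + 1) u w

/-- The edit (Levenshtein) distance. -/
noncomputable def editDist {α : Type} (u v : List α) : ℕ := sInf {j : ℕ | Reach j u v}

/-- The ball of radius `k` around `x`. -/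
def ball {α : Type} (k : ℕ) (x : List α) : Set (List α) := {w | editDist x w ≤ k}

variable {α : Type}

theorem EditStep.append_left {u v : List α} (h : EditStep u v) (t : List α) :
    EditStep (t ++ u) (t ++ v) := by
  cases h with
  | insertion p s a => simpa only [List.append_assoc] using EditStep.insertion (t ++ p) s a
  | deletion p s a => simpa only [List.append_assoc] using EditStep.deletion (t ++ p) s a
  | substitution p s a b =>
    simpa only [List.append_assoc] using EditStep.substitution (t ++ p) s a b

theorem EditStep.append_right {u v : List α} (h : EditStep u v) (t : List α) :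
    EditStep (u ++ t) (v ++ t) := by
  cases h with
  | insertion p s a =>
    simpa only [List.append_assoc, List.cons_append] using EditStep.insertion p (s ++ t) a
  | deletion p s a =>
    simpa only [List.append_assoc, List.cons_append] using EditStep.deletion p (s ++ t) a
  | substitution p s a b =>
    simpa only [List.append_assoc, List.cons_append] using EditStep.substitution p (s ++ t) a b

theorem Reach.trans {i j : ℕ} {u v w : List α} (h1 : Reach i u v) (h2 : Reach j v w) :
    Reach (i + j) u w := by
  induction h2 with
  | refl _ => exact h1
  | tail _ hs ih => exact (ih h1).tail hs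

theorem Reach.append_left {j : ℕ} {u v : List α} (h : Reach j u v) (t : List α) :
    Reach j (t ++ u) (t ++ v) := by
  induction h with
  | refl _ => exact Reach.refl _
  | tail _ hs ih => exact ih.tail (hs.append_left t)

theorem Reach.append_right {j : ℕ} {u v : List α} (h : Reach j u v) (t : List α) :
    Reach j (u ++ t) (v ++ t) := by
  induction h with
  | refl _ => exact Reach.refl _
  | tail _ hs ih => exact ih.tail (hs.append_right t)

theorem Reach.append {i j : ℕ} {u v u' v' : List α} (h1 : Reach i u v) (h2 : Reach j u' v') :
    Reach (i + j) (u ++ u') (v ++ v') :=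
  (h1.append_right u').trans (h2.append_left v)

theorem reach_insert : ∀ w : List α, Reach w.length [] w
  | [] => Reach.refl _
  | a :: w => by
    have h := reach_insert w
    have h2 : EditStep w (a :: w) := by
      have := EditStep.insertion [] w a
      simpa using this
    exact h.tail h2

theorem reach_delete : ∀ w : List α, Reach w.length w []
  | [] => Reach.refl _
  | a :: w => by
    have h2 : EditStep (a :: w) w := by
      have := EditStep.deletion [] w a
      simpa using this
    have h3 : Reach 1 (a :: w) w := (Reach.refl _).tail h2
    have h4 := h3.trans (reach_delete w)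
    rwa [add_comm] at h4

theorem editDist_le {j : ℕ} {u v : List α} (h : Reach j u v) : editDist u v ≤ j := Nat.sInf_le h

theorem reach_editDist (u v : List α) : Reach (editDist u v) u v :=
  Nat.sInf_mem (s := {j : ℕ | Reach j u v}) ⟨_, (reach_delete u).trans (reach_insert v)⟩

theorem reach_map {β : Type} (f g : β → α) (bad : β → Bool)
    (hbad : ∀ b, bad b = false → f b = g b) :
    ∀ l : List β, Reach (l.countP bad) (l.map f) (l.map g)
  | [] => Reach.refl _
  | b :: l => by
    have ih := reach_map f g bad hbad l
    rw [List.map_cons, List.map_cons, List.countP_cons]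
    cases hb : bad b with
    | false =>
      rw [hbad b hb]
      simpa using ih.append_left [g b]
    | true =>
      have h1 : Reach 1 [f b] [g b] := by
        have h2 : EditStep [f b] [g b] := by
          have := EditStep.substitution [] [] (f b) (g b)
          simpa using this
        exact (Reach.refl _).tail h2
      have h3 := h1.append ih
      rw [add_comm] at h3
      simpa using h3

/-- Removing one letter from a word costs at most one letter of a subsequence. -/
theorem sublist_remove {y p s : List α} {a : α} (h : y.Sublist (p ++ a :: s)) :
    ∃ y' : List α, y'.Sublist y ∧ y'.Sublist (p ++ s) ∧ y.length ≤ y'.length + 1 := by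
  obtain ⟨y1, y2, rfl, h1, h2⟩ := List.sublist_append_iff.mp h
  rcases List.sublist_cons_iff.mp h2 with h3 | ⟨t, rfl, h3⟩
  · exact ⟨y1 ++ y2, List.Sublist.refl _, h1.append h3, by omega⟩
  · refine ⟨y1 ++ t, (List.Sublist.refl _).append (List.sublist_cons_self a t), h1.append h3, ?_⟩
    simp only [List.length_append, List.length_cons]
    omega

/-- The lower bound on the edit distance by common subsequences. -/
theorem Reach.common {j : ℕ} {x w : List α} (h : Reach j x w) :
    ∃ y : List α, y.Sublist x ∧ y.Sublist w ∧ w.length ≤ y.length + j := by
  induction h with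
  | refl u => exact ⟨u, List.Sublist.refl _, List.Sublist.refl _, by omega⟩
  | tail _ hs ih =>
    obtain ⟨y, hy1, hy2, hy3⟩ := ih
    cases hs with
    | insertion p s a =>
      refine ⟨y, hy1, hy2.trans ((List.Sublist.refl p).append (List.sublist_cons_self a s)), ?_⟩
      simp only [List.length_append, List.length_cons] at hy3 ⊢
      omega
    | deletion p s a =>
      obtain ⟨y', h1, h2, h3⟩ := sublist_remove hy2
      refine ⟨y', h1.trans hy1, h2, ?_⟩
      simp only [List.length_append, List.length_cons] at hy3 ⊢
      omega
    | substitution p s a b =>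
      obtain ⟨y', h1, h2, h3⟩ := sublist_remove hy2
      refine ⟨y', h1.trans hy1, h2.trans ((List.Sublist.refl p).append
        (List.sublist_cons_self b s)), ?_⟩
      simp only [List.length_append, List.length_cons] at hy3 ⊢
      omega

/-! ### The words -/

/-- Letter number `p`; the letters are `0, …, 2n - 1` and the blank `2n`. -/
def lt (n p : ℕ) : Fin (2 * n + 1) := Fin.ofNat (2 * n + 1) p

theorem lt_inj {n p q : ℕ} (hp : p ≤ 2 * n) (hq : q ≤ 2 * n) (h : lt n p = lt n q) : p = q := by
  have h1 := congrArg Fin.val h
  simp only [lt, Fin.val_ofNat] at h1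
  rwa [Nat.mod_eq_of_lt (by omega), Nat.mod_eq_of_lt (by omega)] at h1

/-- The centre `0 1 2 ⋯ (2n-1)`. -/
def center (n : ℕ) : List (Fin (2 * n + 1)) := (List.range (2 * n)).map (lt n)

/-- `good S p`: position `p` keeps its letter in `word S`: in block `{2t, 2t+1}` the even position
if `t ∈ S`, the odd position otherwise. -/
def good (S : Finset ℕ) (p : ℕ) : Bool := if p % 2 = 0 then decide (p / 2 ∈ S)
  else decide (p / 2 ∉ S)

/-- The prefix word attached to `S`. -/
def word (n : ℕ) (S : Finset ℕ) : List (Fin (2 * n + 1)) :=
  (List.range (2 * n)).map fun p => if good S p then lt n p else lt n (2 * n)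

/-- The test suffix for `i`. -/
def suffix (n i : ℕ) : List (Fin (2 * n + 1)) :=
  List.replicate (i + 1) (lt n (2 * n)) ++ (List.range' (2 * i + 1) (2 * n - (2 * i + 1))).map (lt n)

theorem countP_bad (S : Finset ℕ) (i : ℕ) :
    (List.range (2 * i)).countP (fun p => !good S p) = i := by
  induction i with
  | zero => rfl
  | succ i ih =>
    rw [show 2 * (i + 1) = 2 * i + 1 + 1 by ring, List.range_succ, List.range_succ,
      List.countP_append, List.countP_append, ih]
    have h1 : (2 * i) % 2 = 0 := by omega
    have h2 : (2 * i) / 2 = i := by omega
    have h3 : (2 * i + 1) % 2 = 1 := by omega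
    have h4 : (2 * i + 1) / 2 = i := by omega
    by_cases hi : i ∈ S
    · simp [good, h1, h2, h3, h4, hi]
    · simp [good, h1, h2, h3, h4, hi]

theorem range_split {i n : ℕ} (hi : i < n) : List.range (2 * n) =
    List.range (2 * i + 1) ++ List.range' (2 * i + 1) (2 * n - (2 * i + 1)) := by
  have h : 2 * n = (2 * i + 1) + (2 * n - (2 * i + 1)) := by omega
  rw [List.range_eq_range', List.range_eq_range']
  conv_lhs => rw [h]
  rw [← List.range'_append_1, zero_add]

/-- If `i ∈ S` the test word is in the ball. -/
theorem mem_ball {n i : ℕ} (hi : i < n) {S : Finset ℕ} (hS : i ∈ S) :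
    editDist (center n) (word n S ++ suffix n i) ≤ 2 * n := by
  have hg : good S (2 * i) = true := by
    have h1 : (2 * i) % 2 = 0 := by omega
    have h2 : (2 * i) / 2 = i := by omega
    simp [good, h1, h2, hS]
  have h1 : Reach i ((List.range (2 * i + 1)).map (lt n))
      ((List.range (2 * i + 1)).map fun p => if good S p then lt n p else lt n (2 * n)) := by
    have h := reach_map (lt n) (fun p => if good S p then lt n p else lt n (2 * n))
      (fun p => !good S p) (by
        intro b hb
        have : good S b = true := by simpa using hb
        rw [if_pos this]) (List.range (2 * i + 1))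
    have hc : (List.range (2 * i + 1)).countP (fun p => !good S p) = i := by
      rw [List.range_succ, List.countP_append, countP_bad]
      simp [hg]
    rwa [hc] at h
  have h2 : Reach (2 * n - (2 * i + 1) + (i + 1)) []
      (((List.range' (2 * i + 1) (2 * n - (2 * i + 1))).map
        fun p => if good S p then lt n p else lt n (2 * n)) ++
        List.replicate (i + 1) (lt n (2 * n))) := by
    have h := reach_insert (((List.range' (2 * i + 1) (2 * n - (2 * i + 1))).map
        fun p => if good S p then lt n p else lt n (2 * n)) ++
        List.replicate (i + 1) (lt n (2 * n)))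
    simpa using h
  have h3 := (h1.append h2).append
    (Reach.refl ((List.range' (2 * i + 1) (2 * n - (2 * i + 1))).map (lt n)))
  have h4 : i + (2 * n - (2 * i + 1) + (i + 1)) + 0 = 2 * n := by omega
  rw [h4] at h3
  apply editDist_le
  have h5 : center n = (List.range (2 * i + 1)).map (lt n) ++ [] ++
      (List.range' (2 * i + 1) (2 * n - (2 * i + 1))).map (lt n) := by
    rw [center, range_split hi, List.map_append, List.append_nil]
  have h6 : word n S ++ suffix n i =
      ((List.range (2 * i + 1)).map fun p => if good S p then lt n p else lt n (2 * n)) ++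
      (((List.range' (2 * i + 1) (2 * n - (2 * i + 1))).map
        fun p => if good S p then lt n p else lt n (2 * n)) ++
        List.replicate (i + 1) (lt n (2 * n))) ++
      (List.range' (2 * i + 1) (2 * n - (2 * i + 1))).map (lt n) := by
    rw [word, suffix, range_split hi, List.map_append]
    simp only [List.append_assoc]
  rw [h5, h6]
  exact h3

/-- If `i ∉ S` the test word is not in the ball. -/
theorem not_mem_ball {n i : ℕ} (hi : i < n) {S : Finset ℕ} (hS : i ∉ S) :
    2 * n < editDist (center n) (word n S ++ suffix n i) := by
  obtain ⟨y, hy1, hy2, hy3⟩ := (reach_editDist (center n) (word n S ++ suffix n i)).common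
  obtain ⟨y', hy', rfl⟩ := List.sublist_map_iff.mp hy1
  have hlt : ∀ p ∈ y', p < 2 * n := fun p hp => List.mem_range.mp (hy'.subset hp)
  -- split
  rw [suffix] at hy2
  obtain ⟨a, bc, habc, ha, hbc⟩ := List.sublist_append_iff.mp hy2
  obtain ⟨b, c, hbc', hb, hc⟩ := List.sublist_append_iff.mp hbc
  subst hbc'
  have hyel : ∀ p ∈ y', (good S p = true) ∨ 2 * i + 1 ≤ p := by
    intro p hp
    have h1 : lt n p ∈ a ++ (b ++ c) := by
      rw [← habc]
      exact List.mem_map_of_mem hp
    rw [List.mem_append, List.mem_append] at h1
    have hp2 := hlt p hp
    rcases h1 with h1 | h1 | h1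
    · have h2 := ha.subset h1
      rw [word, List.mem_map] at h2
      obtain ⟨q, hq1, hq2⟩ := h2
      rw [List.mem_range] at hq1
      by_cases hg : good S q = true
      · rw [if_pos hg] at hq2
        rw [lt_inj (by omega) (by omega) hq2] at hg
        exact Or.inl hg
      · rw [if_neg hg] at hq2
        have := lt_inj (by omega) (by omega) hq2
        omega
    · have h2 := List.eq_of_mem_replicate (hb.subset h1)
      have := lt_inj (by omega) (by omega) h2
      omega
    · have h2 := hc.subset h1
      rw [List.mem_map] at h2
      obtain ⟨q, hq1, hq2⟩ := h2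
      rw [List.mem_range'_1] at hq1
      have := lt_inj (by omega) (by omega) hq2
      right
      omega
  have hnd : y'.Nodup := hy'.nodup List.nodup_range
  set U : Finset ℕ := y'.toFinset with hU
  have hUcard : U.card = y'.length := List.toFinset_card_of_nodup hnd
  have hUsub : U ⊆ Finset.range (2 * n) := by
    intro p hp
    rw [Finset.mem_range]
    exact hlt p (List.mem_toFinset.mp hp)
  have hmiss : ∀ t, t ≤ i → 2 * t ∈ U → 2 * t + 1 ∉ U := by
    intro t ht h1 h2
    have e1 : (2 * t) % 2 = 0 := by omega
    have e2 : (2 * t) / 2 = t := by omega
    have e3 : (2 * t + 1) % 2 = 1 := by omega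
    have e4 : (2 * t + 1) / 2 = t := by omega
    have h3 := hyel _ (List.mem_toFinset.mp h1)
    have h4 := hyel _ (List.mem_toFinset.mp h2)
    have h5 : good S (2 * t) = true := by
      rcases h3 with h3 | h3
      · exact h3
      · omega
    have h6 : t ∈ S := by simpa [good, e1, e2] using h5
    rcases h4 with h4 | h4
    · have h7 : t ∉ S := by simpa [good, e3, e4] using h4
      exact h7 h6
    · obtain rfl : t = i := by omega
      exact hS h6
  have hcard : i + 1 ≤ (Finset.range (2 * n) \ U).card := by
    have h1 : ((Finset.range (i + 1)).image
        fun t => if 2 * t ∈ U then 2 * t + 1 else 2 * t) ⊆ Finset.range (2 * n) \ U := by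
      intro q hq
      rw [Finset.mem_image] at hq
      obtain ⟨t, ht, rfl⟩ := hq
      rw [Finset.mem_range] at ht
      rw [Finset.mem_sdiff, Finset.mem_range]
      by_cases h2 : 2 * t ∈ U
      · rw [if_pos h2]
        exact ⟨by omega, hmiss t (by omega) h2⟩
      · rw [if_neg h2]
        exact ⟨by omega, h2⟩
    have h2 := Finset.card_le_card h1
    rw [Finset.card_image_of_injOn, Finset.card_range] at h2
    · exact h2
    · intro s _ t _ hst
      simp only at hst
      split_ifs at hst <;> omega
  have hsd := Finset.card_sdiff_add_card_eq_card hUsub
  rw [Finset.card_range, hUcard] at hsd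
  rw [List.length_map] at hy3
  have hlen : (word n S ++ suffix n i).length = 2 * n + (i + 1) + (2 * n - (2 * i + 1)) := by
    simp [word, suffix]
    omega
  rw [hlen] at hy3
  omega

/-- Q1: there is `c > 0` such that for every `N` there are a finite alphabet `α`, a word `x` and
a radius `k` with `min k |x| ≥ N` such that every complete DFA recognising the ball of radius `k`
around `x` has at least `2 ^ (c * min k |x|)` states. -/
theorem result : ∃ c : ℝ, 0 < c ∧ ∀ N : ℕ, ∃ (α : Type) (_ : Fintype α) (x : List α) (k : ℕ),
    N ≤ min k x.length ∧
    ∀ (σ : Type) (_ : Fintype σ) (M : DFA α σ), (∀ w : List α, w ∈ M.accepts ↔ w ∈ ball k x) →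
      (2 : ℝ) ^ (c * ((min k x.length : ℕ) : ℝ)) ≤ (Fintype.card σ : ℝ) := by
  refine ⟨1 / 2, by norm_num, fun N => ⟨Fin (2 * N + 1), inferInstance, center N, 2 * N, ?_, ?_⟩⟩
  · have : (center N).length = 2 * N := by simp [center]
    rw [this, min_self]
    omega
  · intro σ _ M hM
    have hlen : (center N).length = 2 * N := by simp [center]
    rw [hlen, min_self]
    have hinj : Set.InjOn (fun S : Finset ℕ => M.eval (word N S))
        ((Finset.range N).powerset : Finset (Finset ℕ)) := by
      intro S hS T hT hST
      simp only at hST
      rw [Finset.mem_coe, Finset.mem_powerset] at hS hT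
      have key : ∀ S T : Finset ℕ, M.eval (word N S) = M.eval (word N T) →
          ∀ i < N, i ∈ S → i ∈ T := by
        intro S T h i hi hiS
        by_contra hiT
        have h1 : word N S ++ suffix N i ∈ M.accepts := (hM _).mpr (mem_ball hi hiS)
        have h2 : word N T ++ suffix N i ∉ M.accepts := by
          rw [hM]
          exact not_le.mpr (not_mem_ball hi hiT)
        apply h2
        rw [DFA.mem_accepts] at h1 ⊢
        rw [DFA.eval, DFA.evalFrom_of_append] at h1 ⊢
        have h3 : M.evalFrom M.start (word N T) = M.evalFrom M.start (word N S) := h.symm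
        rw [h3]
        exact h1
      ext i
      constructor
      · intro hi
        exact key S T hST i (Finset.mem_range.mp (hS hi)) hi
      · intro hi
        exact key T S hST.symm i (Finset.mem_range.mp (hT hi)) hi
    have hcard : 2 ^ N ≤ Fintype.card σ := by
      have h1 := Finset.card_le_card_of_injOn (s := (Finset.range N).powerset)
        (t := (Finset.univ : Finset σ)) (fun S : Finset ℕ => M.eval (word N S))
        (fun _ _ => Finset.mem_univ _) hinj
      rwa [Finset.card_powerset, Finset.card_range, Finset.card_univ] at h1
    have h2 : (1 / 2 : ℝ) * ((2 * N : ℕ) : ℝ) = (N : ℝ) := by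
      push_cast
      ring
    rw [h2, Real.rpow_natCast]
    exact_mod_cast hcard

end Pool.Agent.Results.MP_ecf776_lc.ExponentialBall
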